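import Pool.Agent.Y639.AR.Wipe
set_option autoImplicit false

/-!
# Epochs with a profile of useless directions
-/

namespace Pool.Agent.Y639.AR

open Finset Pool.Agent.TH70.AR

variable {n : ℕ} {A : Past n → Fin n} {c : ℕ → ℕ}

/-- number of records with more than `θ` useless directions -/
def high (Y : Finset (Fin n)) (θ : ℕ) (L : List (Rec n)) : ℕ :=
  L.countP fun r => decide (θ < (Y \ r.W).card)

lemma high_append (Y : Finset (Fin n)) (θ : ℕ) (L M : List (Rec n)) :
    high Y θ (L ++ M) = high Y θ L + high Y θ M := by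
  unfold high; exact List.countP_append

lemma high_le_length (Y : Finset (Fin n)) (θ : ℕ) (L : List (Rec n)) : high Y θ L ≤ L.length :=
  List.countP_le_length

lemma high_sublist {Y : Finset (Fin n)} {θ : ℕ} {L M : List (Rec n)} (h : L.Sublist M) :
    high Y θ L ≤ high Y θ M := h.countP_le

lemma high_zero {Y : Finset (Fin n)} {θ : ℕ} {L : List (Rec n)}
    (h : ∀ r ∈ L, (Y \ r.W).card ≤ θ) : high Y θ L = 0 := by
  unfold high
  rw [List.countP_eq_zero]
  intro r hr
  simp [h r hr]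

/-- passing to other records with few more useless directions -/
lemma high_map {Y Y' : Finset (Fin n)} {θ θ' : ℕ} (g : Rec n → Rec n) (L : List (Rec n))
    (h : ∀ r ∈ L, θ' < (Y' \ (g r).W).card → θ < (Y \ r.W).card) :
    high Y' θ' (L.map g) ≤ high Y θ L := by
  unfold high
  rw [List.countP_map]
  apply List.countP_mono_left
  intro r hr h1
  simp only [Function.comp_apply, decide_eq_true_eq] at h1 ⊢
  exact h r hr h1

/-- the sum of the useless directions in terms of a threshold -/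
lemma useless_le {Y : Finset (Fin n)} {L : List (Rec n)} {K θ : ℕ}
    (hK : ∀ r ∈ L, (Y \ r.W).card ≤ K) : useless Y L ≤ θ * L.length + high Y θ L * K := by
  induction L with
  | nil => simp [useless, high]
  | cons r L ih =>
    have h1 := ih fun r hr => hK r (List.mem_cons_of_mem _ hr)
    have h2 := hK r List.mem_cons_self
    have h3 : useless Y (r :: L) = (Y \ r.W).card + useless Y L := by
      simp [useless]
    rw [h3, List.length_cons]
    by_cases h : θ < (Y \ r.W).card
    · have h4 : high Y θ (r :: L) = high Y θ L + 1 := by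
        unfold high; rw [List.countP_cons_of_pos (by simpa using h)]
      rw [h4]
      nlinarith
    · have h4 : high Y θ (r :: L) = high Y θ L := by
        unfold high; rw [List.countP_cons_of_neg (by simpa using h)]
      rw [h4]
      nlinarith

/-- In every cube with more than `6 i l` coordinates the adversary can make the rule walk along at
least `2 ^ i` records with at most `6 i l` useless directions each, only few of which have many
useless directions, and then wipe all of them by freezing at most `l` coordinates. -/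
def Lvp (A : Past n → Fin n) (c : ℕ → ℕ) (l i : ℕ) : Prop :=
  ∀ (Y : Finset (Fin n)) (h : Past n) (a : Fin n → Bool), 6 * i * l < Y.card →
    ∃ (q : List (Rec n)) (b : Fin n → Bool) (X : Finset (Fin n)),
      Walk A c h a q b ∧ Ext Y q ∧ (∀ r ∈ q, r.S ⊆ Y) ∧
      (∀ r ∈ q, r.W ⊆ Y ∧ (Y \ r.W).card ≤ 6 * i * l) ∧
      (∀ D ≤ i, high Y ((4 * D + 2 * i) * l) q + l ≤ l * 2 ^ (i - D)) ∧
      X ⊆ Y ∧ X.card ≤ l ∧ (∀ r ∈ q, Wipes X b r) ∧ 2 ^ i ≤ q.length ∧
      q.length + l ≤ (l + 1) * 2 ^ i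

lemma lvp_zero (hA : Valid A) {l : ℕ} (hl : 1 ≤ l) : Lvp A c l 0 := by
  intro Y h a hY
  have hne : Y.Nonempty := card_pos.1 (by omega)
  set i := A ((a, c h.length, Y) :: h) with hi
  have hiY : i ∈ Y := hA a _ Y h hne
  have hW : ∀ r ∈ [(⟨a, Y, Y⟩ : Rec n)], r.W ⊆ Y ∧ (Y \ r.W).card ≤ 6 * 0 * l := by
    intro r hr
    rw [List.mem_singleton] at hr
    subst hr
    exact ⟨Subset.refl _, by simp⟩
  refine ⟨[⟨a, Y, Y⟩], flip a i, {i}, ⟨rfl, hne, rfl⟩, ext_single Y a Y, ?_, hW, ?_, ?_,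
    by simpa using hl, ?_, by simp, by simp; omega⟩
  · intro r hr
    rw [List.mem_singleton] at hr
    subst hr
    exact Subset.refl _
  · intro D hD
    rw [high_zero (fun r hr => (hW r hr).2.trans (by simp))]
    have hD0 : D = 0 := by omega
    subst hD0
    simp
  · simpa using hiY
  · intro r hr
    rw [List.mem_singleton] at hr
    subst hr
    refine ⟨i, mem_singleton_self i, hiY, ?_⟩
    change flip a i i ≠ a i
    rw [flip_self]
    simp

/-- the schedule: `k t` for `2 ^ t` records -/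
def sch (k s t : ℕ) : ℕ := 1 + 3 * k / (t - s + 1)

lemma lvp_succ (hA : Valid A) {k s l i : ℕ} (hi : i + 1 ≤ k) (hl : cost (sch k s) (k + s) ≤ l)
    (hs : 12 * k * l ≤ 2 ^ s) (hl1 : 1 ≤ l) (h : Lvp A c l i) : Lvp A c l (i + 1) := by
  intro Y p a hY
  have e6 : 6 * (i + 1) * l = 6 * i * l + 6 * l := by ring
  obtain ⟨q₁, b₁, X₁, w₁, e₁, s₁, u₁, g₁, x₁, c₁, v₁, n₁, m₁⟩ := h Y p a (by omega)
  have hY₁ : (Y \ X₁).card + X₁.card = Y.card := card_sdiff_add_card_eq_card x₁
  obtain ⟨q₂, b₂, X₂, w₂, e₂, s₂, u₂, g₂, x₂, c₂, v₂, n₂, m₂⟩ :=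
    h (Y \ X₁) (pst c p q₁) b₁ (by omega)
  have hY₂ : ((Y \ X₁) \ X₂).card + X₂.card = (Y \ X₁).card := card_sdiff_add_card_eq_card x₂
  have hsub₁ : ∀ r : Rec n, ((Y \ X₁) \ X₂) \ r.W ⊆ Y \ r.W := fun r =>
    sdiff_subset_sdiff (sdiff_subset.trans sdiff_subset) (Subset.refl _)
  have hsub₂ : ∀ r : Rec n, ((Y \ X₁) \ X₂) \ r.W ⊆ (Y \ X₁) \ r.W := fun r =>
    sdiff_subset_sdiff sdiff_subset (Subset.refl _)
  -- the profile of all the records
  have hgood : Good (sch k s) ((6 * i + 3) * l) ((Y \ X₁) \ X₂) (q₁ ++ q₂) := by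
    intro L hL t ht
    -- the number of the level
    set e := min i (t - s) with he
    set D := i - e with hD
    have hDi : D ≤ i := by omega
    have hK : ∀ r ∈ L, (((Y \ X₁) \ X₂) \ r.W).card ≤ 6 * i * l := by
      intro r hr
      rcases List.mem_append.1 (hL.subset hr) with hr | hr
      · exact (card_le_card (hsub₁ r)).trans (u₁ r hr).2
      · exact (card_le_card (hsub₂ r)).trans (u₂ r hr).2
    have h1 := useless_le (θ := (4 * D + 2 * i) * l) hK
    have h2 : high ((Y \ X₁) \ X₂) ((4 * D + 2 * i) * l) L + 2 * l ≤ 2 * (l * 2 ^ (i - D)) := by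
      have h3 : high ((Y \ X₁) \ X₂) ((4 * D + 2 * i) * l) L ≤
          high Y ((4 * D + 2 * i) * l) q₁ + high (Y \ X₁) ((4 * D + 2 * i) * l) q₂ := by
        refine (high_sublist hL).trans ?_
        rw [high_append]
        refine Nat.add_le_add ?_ ?_
        · have := high_map (Y := Y) (Y' := (Y \ X₁) \ X₂) (θ := (4 * D + 2 * i) * l)
            (θ' := (4 * D + 2 * i) * l) id q₁
            (fun r hr h => lt_of_lt_of_le h (card_le_card (hsub₁ r)))
          rwa [List.map_id] at this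
        · have := high_map (Y := Y \ X₁) (Y' := (Y \ X₁) \ X₂) (θ := (4 * D + 2 * i) * l)
            (θ' := (4 * D + 2 * i) * l) id q₂
            (fun r hr h => lt_of_lt_of_le h (card_le_card (hsub₂ r)))
          rwa [List.map_id] at this
      have h4 := g₁ D hDi
      have h5 := g₂ D hDi
      omega
    -- the records with many useless directions do not matter
    have h6 : high ((Y \ X₁) \ X₂) ((4 * D + 2 * i) * l) L * (6 * i * l) ≤ l * L.length := by
      have hiD : i - D = e := by omega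
      rw [hiD] at h2
      by_cases he0 : e = 0
      · rw [he0] at h2
        have h7 : high ((Y \ X₁) \ X₂) ((4 * D + 2 * i) * l) L = 0 := by omega
        rw [h7]
        simp
      · have hts : s + e ≤ t := by omega
        have h8 : 2 ^ s * 2 ^ e ≤ L.length := by
          rw [← pow_add]
          exact (Nat.pow_le_pow_right (by norm_num) hts).trans ht
        calc high ((Y \ X₁) \ X₂) ((4 * D + 2 * i) * l) L * (6 * i * l)
            ≤ (2 * (l * 2 ^ e)) * (6 * i * l) := Nat.mul_le_mul_right _ (by omega)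
          _ = l * ((12 * i * l) * 2 ^ e) := by ring
          _ ≤ l * ((12 * k * l) * 2 ^ e) := by gcongr; omega
          _ ≤ l * (2 ^ s * 2 ^ e) := by gcongr
          _ ≤ l * L.length := Nat.mul_le_mul_left _ h8
    have h9 : useless ((Y \ X₁) \ X₂) L ≤ (4 * D + 2 * i + 1) * l * L.length := by
      calc useless ((Y \ X₁) \ X₂) L ≤ (4 * D + 2 * i) * l * L.length + l * L.length := by omega
        _ = (4 * D + 2 * i + 1) * l * L.length := by ring
    -- the choice of the schedule
    have h10 : (sch k s t + 1) * (4 * D + 2 * i + 1) ≤ sch k s t * (6 * i + 3) := by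
      have h11 : 1 ≤ sch k s t := Nat.le_add_right 1 _
      have h12 : 3 * k < sch k s t * (t - s + 1) := by
        unfold sch
        have := Nat.lt_div_mul_add (a := 3 * k) (b := t - s + 1) (by omega)
        nlinarith
      have h13 : 4 * D + 2 * i + 1 ≤ sch k s t * (4 * e + 2) := by
        by_cases hc : t - s ≤ i
        · have he' : e = t - s := by omega
          rw [he']
          rw [he'] at hD
          nlinarith
        · have he' : e = i := by omega
          have hD' : D = 0 := by omega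
          rw [he', hD']
          nlinarith
      have h14 : 6 * i + 3 = (4 * D + 2 * i + 1) + (4 * e + 2) := by omega
      rw [h14]
      nlinarith
    calc (sch k s t + 1) * useless ((Y \ X₁) \ X₂) L
        ≤ (sch k s t + 1) * ((4 * D + 2 * i + 1) * l * L.length) := Nat.mul_le_mul_left _ h9
      _ = ((sch k s t + 1) * (4 * D + 2 * i + 1)) * (l * L.length) := by ring
      _ ≤ (sch k s t * (6 * i + 3)) * (l * L.length) := Nat.mul_le_mul_right _ h10
      _ = sch k s t * L.length * ((6 * i + 3) * l) := by ring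
  have hbud : Bud (sch k s) l (q₁ ++ q₂).length := by
    refine ⟨k + s, 0, by omega, ?_⟩
    rw [pow_zero, pow_zero, mul_one, mul_one, List.length_append]
    have h1 : 2 ^ (i + 1) ≤ 2 ^ k := Nat.pow_le_pow_right (by norm_num) hi
    have h2 : l + 1 ≤ 2 ^ s := by
      have : 12 * 1 * l ≤ 12 * k * l := by gcongr; omega
      omega
    calc q₁.length + q₂.length < (l + 1) * 2 ^ i + (l + 1) * 2 ^ i := by omega
      _ = 2 ^ (i + 1) * (l + 1) := by ring
      _ ≤ 2 ^ k * 2 ^ s := Nat.mul_le_mul h1 h2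
      _ = 2 ^ (k + s) := (pow_add 2 k s).symm
  have e63 : (6 * i + 3) * l = 6 * i * l + 3 * l := by ring
  obtain ⟨q₃, b₃, X₃, w₃, e₃, s₃, u₃, x₃, -, c₃, m₃, v₃, v₃'⟩ :=
    wipe' (c := c) hA (k := sch k s) (Q := (6 * i + 3) * l) (fun t => Nat.le_add_right 1 _) l
      ((Y \ X₁) \ X₂) ∅ (q₁ ++ q₂) (pst c (pst c p q₁) q₂) b₂
      (empty_subset _) hgood hbud (by rw [card_empty]; omega)
  simp only [sdiff_empty, card_empty, zero_add] at s₃ u₃ c₃
  have f₂ := walk_fix hA w₂ s₂
  have f₃ := walk_fix hA w₃ s₃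
  -- the second and third parts
  have S₂₃ : ∀ r ∈ q₂.map (cl X₂ b₂) ++ q₃, r.S ⊆ Y \ X₁ := by
    intro r hr
    rcases List.mem_append.1 hr with hr | hr
    · obtain ⟨s, hs, rfl⟩ := List.mem_map.1 hr
      exact s₂ s hs
    · exact (s₃ r hr).trans sdiff_subset
  have W₂₃ : ∀ r ∈ q₂.map (cl X₂ b₂) ++ q₃, r.W ⊆ Y \ X₁ := by
    intro r hr
    rcases List.mem_append.1 hr with hr | hr
    · obtain ⟨s, hs, rfl⟩ := List.mem_map.1 hr
      exact (filter_subset _ _).trans (u₂ s hs).1
    · exact (u₃ r hr).1.trans sdiff_subset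
  have E₂₃ : Ext (Y \ X₁) (q₂.map (cl X₂ b₂) ++ q₃) :=
    ext_comp e₂ v₂ e₃ s₃ (fun r hr => (u₃ r hr).1) fun r hr x hx =>
      f₃.2 r hr x fun h' => (mem_sdiff.1 h').2 hx
  have E : Ext Y (q₁.map (cl X₁ b₁) ++ (q₂.map (cl X₂ b₂) ++ q₃)) := by
    refine ext_comp e₁ v₁ E₂₃ S₂₃ W₂₃ fun r hr x hx => ?_
    rcases List.mem_append.1 hr with hr | hr
    · obtain ⟨s, hs, rfl⟩ := List.mem_map.1 hr
      exact f₂.2 s hs x fun h' => (mem_sdiff.1 h').2 hx
    · rw [f₃.2 r hr x fun h' => (mem_sdiff.1 (mem_sdiff.1 h').1).2 hx]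
      exact f₂.1 x fun h' => (mem_sdiff.1 h').2 hx
  have hX₃ : ∀ x ∈ X₃, x ∉ X₁ ∧ x ∉ X₂ := fun x hx =>
    ⟨(mem_sdiff.1 (mem_sdiff.1 (x₃ hx)).1).2, (mem_sdiff.1 (x₃ hx)).2⟩
  -- useless directions of closed records
  have k₁ : ∀ r ∈ q₁, (Y \ (cl X₁ b₁ r).W).card ≤ (Y \ r.W).card + 2 * l := by
    intro r hr
    have h1 : Y \ (cl X₁ b₁ r).W ⊆ (Y \ r.W) ∪ X₁ := by
      intro x hx
      rw [mem_sdiff] at hx
      rw [mem_union, mem_sdiff]
      by_cases hxX : x ∈ X₁
      · exact Or.inr hxX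
      · exact Or.inl ⟨hx.1, fun hW => hx.2 (mem_filter.2 ⟨hW, fun h' => hxX h'.1⟩)⟩
    have h2 := card_le_card h1
    have h3 := card_union_le (Y \ r.W) X₁
    omega
  have k₂ : ∀ r ∈ q₂, (Y \ (cl X₂ b₂ r).W).card ≤ ((Y \ X₁) \ r.W).card + 2 * l := by
    intro r hr
    have h1 : Y \ (cl X₂ b₂ r).W ⊆ ((Y \ X₁) \ r.W) ∪ (X₁ ∪ X₂) := by
      intro x hx
      rw [mem_sdiff] at hx
      rw [mem_union, mem_sdiff, mem_sdiff, mem_union]
      by_cases hxX : x ∈ X₁
      · exact Or.inr (Or.inl hxX)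
      by_cases hxX₂ : x ∈ X₂
      · exact Or.inr (Or.inr hxX₂)
      · exact Or.inl ⟨⟨hx.1, hxX⟩,
          fun hW => hx.2 (mem_filter.2 ⟨hW, fun h' => hxX₂ h'.1⟩)⟩
    have h2 := card_le_card h1
    have h3 := card_union_le ((Y \ X₁) \ r.W) (X₁ ∪ X₂)
    have h3' := card_union_le X₁ X₂
    omega
  have k₃ : ∀ r ∈ q₃, (Y \ r.W).card ≤ 6 * (i + 1) * l := by
    intro r hr
    have h1 : Y \ r.W ⊆ (((Y \ X₁) \ X₂) \ r.W) ∪ (X₁ ∪ X₂) := by
      intro x hx
      rw [mem_sdiff] at hx
      rw [mem_union, mem_sdiff, mem_sdiff, mem_sdiff, mem_union]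
      by_cases hxX : x ∈ X₁
      · exact Or.inr (Or.inl hxX)
      by_cases hxX₂ : x ∈ X₂
      · exact Or.inr (Or.inr hxX₂)
      · exact Or.inl ⟨⟨⟨hx.1, hxX⟩, hxX₂⟩, hx.2⟩
    have h2 := card_le_card h1
    have h3 := card_union_le (((Y \ X₁) \ X₂) \ r.W) (X₁ ∪ X₂)
    have h3' := card_union_le X₁ X₂
    have h4 := (u₃ r hr).2
    omega
  have hall : ∀ r ∈ q₁.map (cl X₁ b₁) ++ (q₂.map (cl X₂ b₂) ++ q₃),
      r.W ⊆ Y ∧ (Y \ r.W).card ≤ 6 * (i + 1) * l := by
    intro r hr
    rcases List.mem_append.1 hr with hr | hr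
    · obtain ⟨s, hs, rfl⟩ := List.mem_map.1 hr
      refine ⟨(filter_subset _ _).trans (u₁ s hs).1, ?_⟩
      have h1 := k₁ s hs
      have h2 := (u₁ s hs).2
      omega
    · refine ⟨(W₂₃ r hr).trans sdiff_subset, ?_⟩
      rcases List.mem_append.1 hr with hr | hr
      · obtain ⟨s, hs, rfl⟩ := List.mem_map.1 hr
        have h1 := k₂ s hs
        have h2 := (u₂ s hs).2
        omega
      · exact k₃ r hr
  refine ⟨q₁.map (cl X₁ b₁) ++ (q₂.map (cl X₂ b₂) ++ q₃), b₃, X₃, ?_, E, ?_, hall, ?_,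
    x₃.trans (sdiff_subset.trans sdiff_subset), c₃, ?_, ?_, ?_⟩
  · refine walk_append (walk_map w₁) ?_
    rw [pst_map]
    refine walk_append (walk_map w₂) ?_
    rw [pst_map]
    exact w₃
  · intro r hr
    rcases List.mem_append.1 hr with hr | hr
    · obtain ⟨s, hs, rfl⟩ := List.mem_map.1 hr
      exact s₁ s hs
    · exact (S₂₃ r hr).trans sdiff_subset
  · intro D hD
    by_cases hDi : D = i + 1
    · subst hDi
      rw [high_zero (fun r hr => (hall r hr).2.trans (le_of_eq (by ring)))]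
      simp
    · have hD' : D ≤ i := by omega
      have h1 : high Y ((4 * D + 2 * (i + 1)) * l) (q₁.map (cl X₁ b₁)) ≤
          high Y ((4 * D + 2 * i) * l) q₁ := by
        apply high_map
        intro r hr h1
        have h2 := k₁ r hr
        have h3 : (4 * D + 2 * (i + 1)) * l = (4 * D + 2 * i) * l + 2 * l := by ring
        omega
      have h2 : high Y ((4 * D + 2 * (i + 1)) * l) (q₂.map (cl X₂ b₂)) ≤
          high (Y \ X₁) ((4 * D + 2 * i) * l) q₂ := by
        apply high_map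
        intro r hr h1
        have h2 := k₂ r hr
        have h3 : (4 * D + 2 * (i + 1)) * l = (4 * D + 2 * i) * l + 2 * l := by ring
        omega
      have h3 := high_le_length Y ((4 * D + 2 * (i + 1)) * l) q₃
      have h4 := g₁ D hD'
      have h5 := g₂ D hD'
      rw [high_append, high_append]
      have h6 : l * 2 ^ (i + 1 - D) = 2 * (l * 2 ^ (i - D)) := by
        rw [show i + 1 - D = (i - D) + 1 by omega, pow_succ]
        ring
      rw [h6]
      omega
  · intro r hr
    rcases List.mem_append.1 hr with hr | hr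
    · obtain ⟨s, hs, rfl⟩ := List.mem_map.1 hr
      obtain ⟨x, hx, h1, h2⟩ := v₃ s (List.mem_append_left _ hs)
      exact ⟨x, hx, mem_filter.2 ⟨h1, fun h' => (hX₃ x hx).1 h'.1⟩, h2⟩
    · rcases List.mem_append.1 hr with hr | hr
      · obtain ⟨s, hs, rfl⟩ := List.mem_map.1 hr
        obtain ⟨x, hx, h1, h2⟩ := v₃ s (List.mem_append_right _ hs)
        exact ⟨x, hx, mem_filter.2 ⟨h1, fun h' => (hX₃ x hx).2 h'.1⟩, h2⟩
      · exact v₃' r hr
  · simp only [List.length_append, List.length_map]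
    have : 2 ^ (i + 1) = 2 * 2 ^ i := by ring
    omega
  · simp only [List.length_append, List.length_map]
    have : (l + 1) * 2 ^ (i + 1) = 2 * ((l + 1) * 2 ^ i) := by ring
    omega

lemma lvp_all (hA : Valid A) {k s l : ℕ} (hl : cost (sch k s) (k + s) ≤ l)
    (hs : 12 * k * l ≤ 2 ^ s) (hl1 : 1 ≤ l) (i : ℕ) (hi : i ≤ k) : Lvp A c l i := by
  induction i with
  | zero => exact lvp_zero hA hl1
  | succ i ih => exact lvp_succ hA hi hl hs hl1 (ih (by omega))

/-- harmonic sums -/
lemma harm (C lam : ℕ) : ∑ e ∈ range (2 ^ lam), C / (e + 1) ≤ C * (lam + 1) := by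
  induction lam with
  | zero => simp
  | succ lam ih =>
    have h1 : 2 ^ (lam + 1) = 2 ^ lam + 2 ^ lam := by ring
    rw [h1, sum_range_add]
    have h2 : ∑ x ∈ range (2 ^ lam), C / (2 ^ lam + x + 1) ≤ C := by
      calc ∑ x ∈ range (2 ^ lam), C / (2 ^ lam + x + 1)
          ≤ ∑ x ∈ range (2 ^ lam), C / 2 ^ lam :=
            sum_le_sum fun x _ => Nat.div_le_div_left (by omega) (by positivity)
        _ = 2 ^ lam * (C / 2 ^ lam) := by simp
        _ ≤ C := Nat.mul_div_le C (2 ^ lam)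
    calc _ ≤ C * (lam + 1) + C := Nat.add_le_add ih h2
      _ = C * (lam + 1 + 1) := by ring

lemma cost_le {k s lam : ℕ} (hlam : k ≤ 2 ^ lam) :
    cost (sch k s) (k + s) ≤ s * (6 * k + 4) + 4 * k + 6 * k * (lam + 1) := by
  unfold cost
  rw [add_comm k s, sum_range_add]
  have h1 : ∑ x ∈ range s, (2 * sch k s x + 2) = s * (6 * k + 4) := by
    rw [sum_congr rfl (g := fun _ => 6 * k + 4)]
    · simp
    · intro x hx
      rw [mem_range] at hx
      unfold sch
      rw [show x - s + 1 = 1 by omega, Nat.div_one]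
      ring
  have h2 : ∑ x ∈ range k, (2 * sch k s (s + x) + 2) ≤ 4 * k + 6 * k * (lam + 1) := by
    have h3 : ∑ x ∈ range k, (2 * sch k s (s + x) + 2) =
        4 * k + 2 * ∑ x ∈ range k, 3 * k / (x + 1) := by
      rw [mul_sum]
      have : ∀ x ∈ range k, 2 * sch k s (s + x) + 2 = 4 + 2 * (3 * k / (x + 1)) := by
        intro x _
        unfold sch
        rw [show s + x - s + 1 = x + 1 by omega]
        ring
      rw [sum_congr rfl this, sum_add_distrib]
      simp [mul_comm]
    have h4 : ∑ x ∈ range k, 3 * k / (x + 1) ≤ 3 * k * (lam + 1) :=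
      (sum_le_sum_of_subset (range_subset_range.2 hlam)).trans (harm (3 * k) lam)
    rw [h3]
    nlinarith
  omega

/-- the parameters -/
lemma lvp_main (hA : Valid A) {k lam : ℕ} (hk : 1 ≤ k) (hlam : k ≤ 2 ^ lam) :
    Lvp A c (12 * k * (3 * lam + 10)) k := by
  have h1 : cost (sch k (3 * lam + 11)) (k + (3 * lam + 11)) ≤ 12 * k * (3 * lam + 10) := by
    refine (cost_le hlam).trans ?_
    nlinarith
  have h2 : ∀ m : ℕ, 12 * (12 * (3 * m + 10)) ≤ 2 ^ (m + 11) := by
    intro m
    induction m with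
    | zero => norm_num
    | succ m ih =>
      have : 2 ^ (m + 1 + 11) = 2 * 2 ^ (m + 11) := by ring
      omega
  refine lvp_all hA h1 ?_ ?_ k le_rfl
  · calc 12 * k * (12 * k * (3 * lam + 10)) = k * k * (12 * (12 * (3 * lam + 10))) := by ring
      _ ≤ 2 ^ lam * 2 ^ lam * 2 ^ (lam + 11) :=
        Nat.mul_le_mul (Nat.mul_le_mul hlam hlam) (h2 lam)
      _ = 2 ^ (3 * lam + 11) := by rw [← pow_add, ← pow_add]; congr 1; ring
  · nlinarith

end Pool.Agent.Y639.AR
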