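import Pool.Agent.Y639.AR.Level
set_option autoImplicit false

/-!
# Several rules on one objective function
-/

namespace Pool.Agent.Y639.AR

open Finset Pool.Agent.TH70.AR

variable {n : ℕ}

lemma run_add (A : Past n → Fin n) (f : (Fin n → Bool) → ℕ) (s t : ℕ) (a : Fin n → Bool)
    (h : Past n) : run A f (s + t) a h = run A f t (run A f s a h).1 (run A f s a h).2 := by
  induction s generalizing a h with
  | zero => simp [run]
  | succ s ih =>
    rw [show s + 1 + t = (s + t) + 1 by omega, run, run, ih]

lemma run_congr {A : Past n → Fin n} {f f' : (Fin n → Bool) → ℕ} {a : Fin n → Bool} {h : Past n}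
    (t : ℕ) (hv : ∀ s < t, view f (run A f s a h).1 = view f' (run A f s a h).1) :
    run A f' t a h = run A f t a h := by
  induction t with
  | zero => rfl
  | succ t ih =>
    rw [run_succ, run_succ, ih fun s hs => hv s (by omega), hv t (by omega)]

lemma mem_improving {f : (Fin n → Bool) → ℕ} {x : Fin n → Bool} {i : Fin n} :
    i ∈ improving f x ↔ f x < f (flip x i) := by
  simp [improving]

/-- the first `T` vertices of the run are not the maximum -/
def Long (A : Past n → Fin n) (x : Fin n → Bool) (T : ℕ) (f : (Fin n → Bool) → ℕ) : Prop :=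
  ∀ t < T, (improving f (run A f t x []).1).Nonempty

lemma of_long {f : (Fin n → Bool) → ℕ} {A : Past n → Fin n} (hA : Valid A)
    {x₀ : Fin n → Bool} {T : ℕ} (h : Long A x₀ T f) :
    ∃ (L : ℕ) (w : ℕ → (Fin n → Bool)), w 0 = x₀ ∧
        (∀ t < L, (improving f (w t)).Nonempty ∧ w (t + 1) = flip (w t) (A (seen f w t))) ∧
        improving f (w L) = ∅ ∧ T ≤ L := by
  classical
  set w : ℕ → (Fin n → Bool) := fun t => (run A f t x₀ []).1 with hw
  have hseen : ∀ t, seen f w t = view f (w t) :: (run A f t x₀ []).2 := by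
    intro t
    induction t with
    | zero => rfl
    | succ t ih => rw [seen, ih, run_succ]
  have hstep : ∀ t, w (t + 1) = flip (w t) (A (seen f w t)) := by
    intro t
    rw [hseen]
    simp only [hw, run_succ]
  have hup : ∀ t, (improving f (w t)).Nonempty → f (w t) < f (w (t + 1)) := by
    intro t ht
    have h1 := hA (w t) (f (w t)) (improving f (w t)) (run A f t x₀ []).2 ht
    rw [hstep, hseen]
    change A (view f (w t) :: (run A f t x₀ []).2) ∈ _ at h1
    exact mem_improving.1 h1
  have hend : ∃ t, improving f (w t) = ∅ := by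
    by_contra hne
    push Not at hne
    have h1 : StrictMono fun t => f (w t) := strictMono_nat_of_lt_succ fun t => hup t (hne t)
    have h2 := h1.injective
    have h3 : Function.Injective w := fun s t h => h2 (by simp only [h])
    exact not_injective_infinite_finite w h3
  refine ⟨Nat.find hend, w, rfl, fun t ht => ⟨?_, hstep t⟩, Nat.find_spec hend, ?_⟩
  · exact nonempty_iff_ne_empty.2 (Nat.find_min hend ht)
  · by_contra hlt
    have h2 := h (Nat.find hend) (by omega)
    rw [Nat.find_spec hend] at h2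
    exact absurd h2 (by simp)

section

variable {X : Finset (Fin n)} {b : Fin n → Bool} {g : (Fin n → Bool) → ℕ}

lemma improving_off (g' : (Fin n → Bool) → ℕ) {u : Fin n → Bool} (hu : ¬ On X b u) (i : Fin n) :
    i ∈ improving (stack (On X b) g' g) u ↔ On X b (flip u i) ∨ g u < g (flip u i) := by
  rw [mem_improving]
  by_cases h : On X b (flip u i)
  · exact iff_of_true (stack_lt hu h) (Or.inl h)
  · rw [stack_lt_neg hu h]
    simp [h]

lemma view_off (g' g'' : (Fin n → Bool) → ℕ) {u : Fin n → Bool} (hu : ¬ On X b u) :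
    view (stack (On X b) g' g) u = view (stack (On X b) g'' g) u := by
  unfold view
  rw [stack_neg hu, stack_neg hu]
  have : improving (stack (On X b) g' g) u = improving (stack (On X b) g'' g) u := by
    ext i
    rw [improving_off g' hu, improving_off g'' hu]
  rw [this]

lemma nonempty_off (hg : AOF g) (hX : Hyp g X b) (g' : (Fin n → Bool) → ℕ) {u : Fin n → Bool}
    (hu : ¬ On X b u) : (improving (stack (On X b) g' g) u).Nonempty := by
  by_contra hne
  rw [not_nonempty_iff_eq_empty] at hne
  have h1 : ∀ i, g (flip u i) < g u := by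
    intro i
    have h2 : i ∉ improving (stack (On X b) g' g) u := by rw [hne]; simp
    rw [improving_off g' hu] at h2
    push Not at h2
    exact lt_of_le_of_ne h2.2 (hg.ne u i)
  obtain ⟨m, ⟨hm1, hm2⟩, -⟩ := hg (univ \ X) b
  have hmX : On X b m := fun i hi => hm1 i (by simp [hi])
  obtain ⟨z, -, hz⟩ := hg univ b
  have e1 : u = z := hz u ⟨fun i hi => absurd (mem_univ i) hi, fun i _ => h1 i⟩
  have e2 : m = z := by
    apply hz
    refine ⟨fun i hi => absurd (mem_univ i) hi, fun i _ => ?_⟩
    by_cases hiX : i ∈ X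
    · exact hX m hmX i hiX
    · exact hm2 i (by simp [hiX])
  exact hu (e1.trans e2.symm ▸ hmX)

/-- the run enters the hypersink, whatever happens there -/
lemma enter (hg : AOF g) (hX : Hyp g X b) {A : Past n → Fin n} (hA : Valid A)
    (x : Fin n → Bool) :
    ∃ (t₀ : ℕ) (a : Fin n → Bool) (h : Past n), On X b a ∧ ∀ g' : (Fin n → Bool) → ℕ,
      run A (stack (On X b) g' g) t₀ x [] = (a, h) ∧
      ∀ t < t₀, (improving (stack (On X b) g' g) (run A (stack (On X b) g' g) t x []).1).Nonempty := by
  classical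
  set F := stack (On X b) g g with hF
  have hex : ∃ t, On X b (run A F t x []).1 := by
    by_contra hne
    push Not at hne
    set w : ℕ → (Fin n → Bool) := fun t => (run A F t x []).1 with hw
    have hup : ∀ t, F (w t) < F (w (t + 1)) := by
      intro t
      have h0 := nonempty_off hg hX g (hne t)
      have h1 := hA (w t) (F (w t)) (improving F (w t)) (run A F t x []).2 h0
      have h2 : w (t + 1) = flip (w t) (A (view F (w t) :: (run A F t x []).2)) := by
        simp only [hw, run_succ]
      rw [h2]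
      change A (view F (w t) :: (run A F t x []).2) ∈ _ at h1
      exact mem_improving.1 h1
    have h1 : StrictMono fun t => F (w t) := strictMono_nat_of_lt_succ hup
    have h2 := h1.injective
    have h3 : Function.Injective w := fun s t h => h2 (by simp only [h])
    exact not_injective_infinite_finite w h3
  refine ⟨Nat.find hex, (run A F (Nat.find hex) x []).1, (run A F (Nat.find hex) x []).2,
    Nat.find_spec hex, fun g' => ?_⟩
  have hcongr : ∀ t ≤ Nat.find hex,
      run A (stack (On X b) g' g) t x [] = run A F t x [] := by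
    intro t ht
    apply run_congr
    intro s hs
    exact view_off g g' (Nat.find_min hex (by omega))
  refine ⟨by rw [hcongr _ le_rfl], fun t ht => ?_⟩
  rw [hcongr t ht.le]
  exact nonempty_off hg hX g' (Nat.find_min hex ht)

lemma stack_inj {g' : (Fin n → Bool) → ℕ} (hg : Function.Injective g)
    (hg' : Function.Injective g') : Function.Injective (stack (On X b) g' g) := by
  intro u v h
  by_cases hu : On X b u
  · by_cases hv : On X b v
    · rw [stack_pos hu, stack_pos hv] at h
      exact hg' (by omega)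
    · have := stack_lt (g := g') (f := g) hv hu
      omega
  · by_cases hv : On X b v
    · have := stack_lt (g := g') (f := g) hu hv
      omega
    · rw [stack_neg hu, stack_neg hv] at h
      exact hg h

end

lemma aof_of_adj {f g : (Fin n → Bool) → ℕ} (hf : AOF f)
    (h : ∀ x i, g x < g (flip x i) ↔ f x < f (flip x i)) : AOF g := by
  have h1 : ∀ y i, g (TH70.AR.flip y i) < g y ↔ f (TH70.AR.flip y i) < f y := by
    intro y i
    have := h (TH70.AR.flip y i) i
    rwa [TH70.AR.flip_flip] at this
  intro F x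
  obtain ⟨y, ⟨hy1, hy2⟩, hy3⟩ := hf F x
  exact ⟨y, ⟨hy1, fun i hi => (h1 y i).2 (hy2 i hi)⟩,
    fun z hz => hy3 z ⟨hz.1, fun i hi => (h1 z i).1 (hz.2 i hi)⟩⟩

lemma hyp_of_adj {f g : (Fin n → Bool) → ℕ} {X : Finset (Fin n)} {b : Fin n → Bool}
    (hf : Hyp f X b) (h : ∀ x i, g x < g (flip x i) ↔ f x < f (flip x i)) : Hyp g X b := by
  intro u hu i hi
  have h1 := h (TH70.AR.flip u i) i
  rw [TH70.AR.flip_flip] at h1
  exact h1.2 (hf u hu i hi)

/-- the visited vertices increase -/
lemma walk_inc {A : Past n → Fin n} (hA : Valid A) {c : ℕ → ℕ} {f : (Fin n → Bool) → ℕ}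
    {Y : Finset (Fin n)} {b : Fin n → Bool} :
    ∀ (q : List (Rec n)) (h : Past n) (a : Fin n → Bool), Walk A c h a q b →
      (∀ r ∈ q, r.S ⊆ Y) → (∀ r ∈ q, ∀ i ∈ Y, (f r.w < f (flip r.w i) ↔ i ∈ r.S)) →
      ∀ (t : ℕ) (ht : t + 1 < q.length), f (q[t]).w < f (q[t + 1]).w := by
  intro q
  induction q with
  | nil => intro h a _ _ _ t ht; simp at ht
  | cons r q ih =>
    intro h a hq hS hf t ht
    simp only [Walk] at hq
    obtain ⟨h1, h2, h3⟩ := hq
    cases t with
    | zero =>
      cases q with
      | nil => simp at ht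
      | cons s q =>
        simp only [Walk] at h3
        simp only [List.getElem_cons_zero, List.getElem_cons_succ]
        rw [h3.1]
        have h4 := hA a (c h.length) r.S h h2
        have h5 := (hf r List.mem_cons_self _ (hS r List.mem_cons_self h4)).2 h4
        rw [h1] at h5 ⊢
        exact h5
    | succ t =>
      simp only [List.getElem_cons_succ]
      exact ih _ _ h3 (fun r hr => hS r (List.mem_cons_of_mem _ hr))
        (fun r hr => hf r (List.mem_cons_of_mem _ hr)) t (by simpa using ht)

/-- **One more rule.** -/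
lemma add_rule {g : (Fin n → Bool) → ℕ} {X : Finset (Fin n)} {b : Fin n → Bool}
    (hg : AOF g) (hinj : Function.Injective g) (hX : Hyp g X b) {A : Past n → Fin n}
    (hA : Valid A) {l k : ℕ} (hL : ∀ c, Lvp A c l k) (hn : 6 * k * l + X.card < n)
    (x : Fin n → Bool) :
    ∃ (g₁ : (Fin n → Bool) → ℕ) (X₁ : Finset (Fin n)) (b₁ : Fin n → Bool),
      AOF g₁ ∧ Function.Injective g₁ ∧ Hyp g₁ X₁ b₁ ∧ X₁.card ≤ X.card + l ∧
      (∀ g', ∃ g'', stack (On X₁ b₁) g' g₁ = stack (On X b) g'' g) ∧
      ∀ g', Long A x (2 ^ k) (stack (On X₁ b₁) g' g₁) := by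
  classical
  obtain ⟨t₀, a, h, ha, hrun⟩ := enter hg hX hA x
  set Y : Finset (Fin n) := univ \ X with hY
  have hYc : Y.card + X.card = n := by
    rw [hY, card_sdiff_add_card_eq_card (subset_univ X), card_univ, Fintype.card_fin]
  set B : ℕ := 1 + ∑ x, g x with hB
  set c : ℕ → ℕ := fun t => (t + 1 - h.length) * 2 ^ n + B with hc
  obtain ⟨q, b', X', hq, hE, hS, hW, -, hX'Y, hX'l, hwipe, hlen, -⟩ := hL c Y h a (by omega)
  have hfix := walk_fix hA hq hS
  have hYX : ∀ i, i ∉ Y ↔ i ∈ X := fun i => by simp [hY]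
  obtain ⟨g1, hg1, hg1S, hg1H⟩ := hE b' {X'} (by
    intro A' hA' r hr
    rw [mem_singleton] at hA'
    subst hA'
    exact hwipe r hr)
  set u : ℕ → (Fin n → Bool) := fun t => if ht : t < q.length then (q[t]).w else x with hu
  have hut : ∀ (t : ℕ) (ht : t < q.length), u t = (q[t]).w := fun t ht => by simp [hu, ht]
  obtain ⟨g2, hg2inj, hadj, hval⟩ := relabel hg1 (T := q.length) u (by
    intro t ht
    rw [hut t (by omega), hut (t + 1) ht]
    exact walk_inc hA q h a hq hS hg1S t ht)
  have hg2 : AOF g2 := aof_of_adj hg1 hadj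
  have hg2H : Hyp g2 X' b' := hyp_of_adj (hg1H X' (mem_singleton_self _)) hadj
  -- faces
  have hbX : ∀ i ∈ X, b' i = b i := fun i hi => by
    rw [hfix.1 i ((hYX i).2 hi)]; exact ha i hi
  have hsub : ∀ u, On (X ∪ X') b' u → On X b u := fun u hu i hi => by
    rw [hu i (mem_union_left _ hi), hbX i hi]
  have hqX : ∀ r ∈ q, On X b r.w := fun r hr i hi => by
    rw [hfix.2 r hr i ((hYX i).2 hi)]; exact ha i hi
  have hqX' : ∀ r ∈ q, ¬ On (X ∪ X') b' r.w := fun r hr hon => by
    obtain ⟨y, hy, -, hne⟩ := hwipe r hr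
    exact hne (hon y (mem_union_right _ hy)).symm
  set g₁ := stack (On X b) g2 g with hg₁
  have hoff : ∀ (v : Fin n → Bool), On X b v → ∀ i ∈ X, ¬ On X b (flip v i) := by
    intro v hv i hi hc
    have h1 := hc i hi
    rw [flip_self, hv i hi] at h1
    simp at h1
  have hHyp : Hyp g₁ (X ∪ X') b' := by
    intro v hv i hi
    have hvX := hsub v hv
    by_cases hiX : i ∈ X
    · exact stack_lt (hoff v hvX i hiX) hvX
    · have hiX' : i ∈ X' := (mem_union.1 hi).resolve_left hiX
      rw [hg₁, stack_lt_pos (hvX.flip hiX) hvX]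
      exact hg2H v (fun j hj => hv j (mem_union_right _ hj)) i hiX'
  -- the new function is of the old kind
  have hold : ∀ g', ∃ g'', stack (On (X ∪ X') b') g' g₁ = stack (On X b) g'' g := by
    intro g'
    refine ⟨fun v => stack (On (X ∪ X') b') g' g₁ v - B, ?_⟩
    funext v
    by_cases hv : On X b v
    · rw [stack_pos (P := On X b) hv]
      have hge : B ≤ stack (On (X ∪ X') b') g' g₁ v := by
        have hge1 : B ≤ g₁ v := by
          rw [hg₁, stack_pos hv]
          omega
        by_cases hv' : On (X ∪ X') b' v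
        · rw [stack_pos hv']
          have := le_sum g₁ v
          omega
        · rw [stack_neg hv']
          exact hge1
      omega
    · rw [stack_neg (P := On X b) hv, stack_neg fun h' => hv (hsub v h'), hg₁, stack_neg hv]
  refine ⟨g₁, X ∪ X', b', hg.stackOn hg2 hX, stack_inj hinj hg2inj, hHyp,
    (card_union_le X X').trans (by omega), hold, ?_⟩
  intro g'
  obtain ⟨g'', hFg⟩ := hold g'
  set F := stack (On (X ∪ X') b') g' g₁ with hF
  have himp : ∀ r ∈ q, improving F r.w = r.S := by
    intro r hr
    ext i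
    rw [mem_improving]
    by_cases hiX : i ∈ X
    · refine iff_of_false ?_ ?_
      · have h1 := hoff r.w (hqX r hr) i hiX
        rw [hFg]
        have := stack_lt (g := g'') (f := g) h1 (hqX r hr)
        omega
      · intro hiS
        exact absurd (hS r hr hiS) ((hYX i).2 hiX)
    · have hfl : On X b (flip r.w i) := (hqX r hr).flip hiX
      have hiY : i ∈ Y := by
        by_contra hc
        exact hiX ((hYX i).1 hc)
      have key : g2 r.w < g2 (flip r.w i) ↔ i ∈ r.S := by
        rw [hadj]; exact hg1S r hr i hiY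
      by_cases hfl' : On (X ∪ X') b' (flip r.w i)
      · refine iff_of_true (stack_lt (hqX' r hr) hfl') ?_
        have hi : i ∈ X ∪ X' := by
          by_contra hc
          exact hqX' r hr (by simpa [TH70.AR.flip_flip] using hfl'.flip hc)
        have hiX' : i ∈ X' := (mem_union.1 hi).resolve_left hiX
        have h1 := hg2H _ (fun j hj => hfl' j (mem_union_right _ hj)) i hiX'
        rw [TH70.AR.flip_flip] at h1
        exact key.1 h1
      · rw [hF, stack_lt_neg (hqX' r hr) hfl', hg₁, stack_lt_pos (hqX r hr) hfl]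
        exact key
  have hv : ∀ (t : ℕ) (ht : t < q.length), F (q[t]).w = c (h.length + t) := by
    intro t ht
    have hm : q[t] ∈ q := List.getElem_mem ht
    rw [hF, stack_neg (hqX' _ hm), hg₁, stack_pos (hqX _ hm), ← hut t ht, hval t ht, hc]
    simp only
    rw [show h.length + t + 1 - h.length = t + 1 by omega]
  have hw := run_walk hq himp hv
  obtain ⟨r1, r2⟩ := hrun g''
  rw [← hFg] at r1 r2
  intro t ht
  by_cases htt : t < t₀
  · exact r2 t htt
  · obtain ⟨s, rfl⟩ := Nat.exists_eq_add_of_le (not_lt.1 htt)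
    rw [run_add, r1]
    obtain ⟨h1, h2⟩ := hw s (by omega)
    rw [h1, himp _ (List.getElem_mem _)]
    exact h2

/-- all the rules of a list -/
lemma all_rules {l k : ℕ} (hl : 1 ≤ l) (R : List ((Past n → Fin n) × (Fin n → Bool)))
    (hA : ∀ p ∈ R, Valid p.1) (hL : ∀ p ∈ R, ∀ c, Lvp p.1 c l k)
    (hn : R = [] ∨ (6 * k + R.length) * l ≤ n) :
    ∃ (g : (Fin n → Bool) → ℕ) (X : Finset (Fin n)) (b : Fin n → Bool),
      AOF g ∧ Function.Injective g ∧ Hyp g X b ∧ X.card ≤ R.length * l ∧
      ∀ p ∈ R, ∀ g', Long p.1 p.2 (2 ^ k) (stack (On X b) g' g) := by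
  classical
  induction R with
  | nil =>
    obtain ⟨g, h1, h2, -⟩ := relabel (AOF.uniform (n := n) fun _ => false) (T := 0)
      (fun _ _ => false) (by intro t ht; omega)
    exact ⟨g, ∅, fun _ => false, aof_of_adj (AOF.uniform _) h2, h1,
      fun u _ i hi => absurd hi (notMem_empty i), by simp, by simp⟩
  | cons p R ih =>
    have hn' : (6 * k + (R.length + 1)) * l ≤ n := by
      rcases hn with h | h
      · simp at h
      · simpa using h
    have e1 : (6 * k + (R.length + 1)) * l = 6 * k * l + R.length * l + l := by ring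
    obtain ⟨g, X, b, h1, h2, h3, h4, h5⟩ := ih (fun p hp => hA p (List.mem_cons_of_mem _ hp))
      (fun p hp => hL p (List.mem_cons_of_mem _ hp)) (Or.inr (by
        have : (6 * k + R.length) * l = 6 * k * l + R.length * l := by ring
        omega))
    obtain ⟨g₁, X₁, b₁, i1, i2, i3, i4, i5, i6⟩ := add_rule h1 h2 h3
      (hA p List.mem_cons_self) (hL p List.mem_cons_self) (by omega) p.2
    refine ⟨g₁, X₁, b₁, i1, i2, i3, ?_, ?_⟩
    · rw [List.length_cons]
      have : (R.length + 1) * l = R.length * l + l := by ring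
      omega
    · intro p' hp' g'
      rcases List.mem_cons.1 hp' with rfl | hp'
      · exact i6 g'
      · obtain ⟨g'', hg''⟩ := i5 g'
        rw [hg'']
        exact h5 p' hp' g''

/-- **The main lower bound for several rules.** -/
theorem slow_all {n k m lam : ℕ} (hk : 1 ≤ k) (hlam : k ≤ 2 ^ lam)
    (hn : (6 * k + m) * (12 * k * (3 * lam + 10)) ≤ n) (A : Fin m → Past n → Fin n)
    (hA : ∀ j, Valid (A j)) (x₀ : Fin m → (Fin n → Bool)) :
    ∃ f : (Fin n → Bool) → ℕ, Function.Injective f ∧ AOF f ∧ ∀ j,
      ∃ (L : ℕ) (w : ℕ → (Fin n → Bool)), w 0 = x₀ j ∧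
        (∀ t < L, (improving f (w t)).Nonempty ∧ w (t + 1) = flip (w t) (A j (seen f w t))) ∧
        improving f (w L) = ∅ ∧ 2 ^ k ≤ L := by
  obtain ⟨g, X, b, h1, h2, h3, -, h4⟩ := all_rules (l := 12 * k * (3 * lam + 10)) (k := k)
    (by nlinarith) (List.ofFn fun j => (A j, x₀ j))
    (by
      intro p hp
      obtain ⟨j, rfl⟩ := (List.mem_ofFn' _ _).1 hp
      exact hA j)
    (by
      intro p hp c
      obtain ⟨j, rfl⟩ := (List.mem_ofFn' _ _).1 hp
      exact lvp_main (hA j) hk hlam)
    (Or.inr (by simpa using hn))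
  refine ⟨stack (On X b) g g, stack_inj h2 h2, h1.stackOn h1 h3, fun j => ?_⟩
  exact of_long (hA j) (h4 (A j, x₀ j) ((List.mem_ofFn' _ _).2 ⟨j, rfl⟩) g)

end Pool.Agent.Y639.AR
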