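import Pool.Agent.TH70.AR.Run
set_option autoImplicit false

/-!
# The wiping phase with a schedule

The number of records which are left decreases during the phase. When between `2 ^ t` and
`2 ^ (t + 1)` records are left, the parameter `k t` is used.
-/

namespace Pool.Agent.Y639.AR

open Finset Pool.Agent.TH70.AR

variable {n : ℕ}

/-- total number of useless directions -/
def useless (Y : Finset (Fin n)) (L : List (Rec n)) : ℕ := (L.map fun r => (Y \ r.W).card).sum

/-- the cost of the stages below `t` -/
def cost (k : ℕ → ℕ) (t : ℕ) : ℕ := ∑ s ∈ range t, (2 * k s + 2)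

/-- `m` steps are enough for `R` records -/
def Bud (k : ℕ → ℕ) (m R : ℕ) : Prop :=
  ∃ t j, j + cost k t ≤ m ∧ R * (2 * k t + 1) ^ j < 2 ^ t * (2 * k t + 2) ^ j

/-- the average number of useless directions, for all sublists -/
def Good (k : ℕ → ℕ) (Q : ℕ) (Y : Finset (Fin n)) (L : List (Rec n)) : Prop :=
  ∀ L' : List (Rec n), L'.Sublist L → ∀ t, 2 ^ t ≤ L'.length →
    (k t + 1) * useless Y L' ≤ k t * L'.length * Q

lemma bud_zero {k : ℕ → ℕ} {R : ℕ} (h : Bud k 0 R) : R = 0 := by
  obtain ⟨t, j, h1, h2⟩ := h
  have hj : j = 0 := by omega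
  have hc : cost k t = 0 := by omega
  have ht : t = 0 := by
    by_contra hne
    obtain ⟨s, rfl⟩ := Nat.exists_eq_succ_of_ne_zero hne
    unfold cost at hc
    rw [sum_range_succ] at hc
    omega
  subst hj
  subst ht
  simp at h2
  omega

lemma stage_ineq (k : ℕ) : 2 * (2 * k + 1) ^ (2 * k + 2) ≤ (2 * k + 2) ^ (2 * k + 2) := by
  have h := two_pow_mul_le k 1
  simp only [pow_one, mul_one] at h
  calc 2 * (2 * k + 1) ^ (2 * k + 2) = (2 * (2 * k + 1) ^ (2 * k + 1)) * (2 * k + 1) := by ring
    _ ≤ (2 * k + 2) ^ (2 * k + 1) * (2 * k + 2) := Nat.mul_le_mul h (by omega)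
    _ = (2 * k + 2) ^ (2 * k + 2) := by ring

lemma bud_step {k : ℕ → ℕ} {m R : ℕ} (h : Bud k (m + 1) R) (hR : 1 ≤ R) :
    ∃ t, 2 ^ t ≤ R ∧ ∀ R', (2 * k t + 2) * R' ≤ (2 * k t + 1) * R → Bud k m R' := by
  obtain ⟨t, j, h1, h2⟩ := h
  induction t using Nat.strong_induction_on generalizing j with
  | _ t ih =>
    by_cases ht : 2 ^ t ≤ R
    · refine ⟨t, ht, fun R' hR' => ?_⟩
      have hj : j ≠ 0 := by
        rintro rfl
        simp only [pow_zero, mul_one] at h2
        omega
      obtain ⟨i, rfl⟩ := Nat.exists_eq_succ_of_ne_zero hj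
      refine ⟨t, i, by omega, ?_⟩
      have h3 : (2 * k t + 2) * (R' * (2 * k t + 1) ^ i) < (2 * k t + 2) * (2 ^ t * (2 * k t + 2) ^ i) := by
        calc (2 * k t + 2) * (R' * (2 * k t + 1) ^ i)
            = ((2 * k t + 2) * R') * (2 * k t + 1) ^ i := by ring
          _ ≤ ((2 * k t + 1) * R) * (2 * k t + 1) ^ i := Nat.mul_le_mul_right _ hR'
          _ = R * (2 * k t + 1) ^ (i + 1) := by ring
          _ < 2 ^ t * (2 * k t + 2) ^ (i + 1) := h2
          _ = (2 * k t + 2) * (2 ^ t * (2 * k t + 2) ^ i) := by ring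
      exact lt_of_mul_lt_mul_left h3 (Nat.zero_le _)
    · have ht0 : t ≠ 0 := by
        rintro rfl
        simp at ht
        omega
      obtain ⟨s, rfl⟩ := Nat.exists_eq_succ_of_ne_zero ht0
      have hc : cost k (s + 1) = cost k s + (2 * k s + 2) := by
        unfold cost; rw [sum_range_succ]
      refine ih s (by omega) (2 * k s + 2) (by
        have : cost k (s + 1) = cost k s.succ := rfl
        omega) ?_
      have h3 := stage_ineq (k s)
      have h4 : R < 2 ^ (s + 1) := not_le.1 ht
      calc R * (2 * k s + 1) ^ (2 * k s + 2)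
          < 2 ^ (s + 1) * (2 * k s + 1) ^ (2 * k s + 2) :=
            Nat.mul_lt_mul_of_pos_right h4 (by positivity)
        _ = 2 ^ s * (2 * (2 * k s + 1) ^ (2 * k s + 2)) := by ring
        _ ≤ 2 ^ s * (2 * k s + 2) ^ (2 * k s + 2) := Nat.mul_le_mul_left _ h3

lemma useless_anti {Y Y' : Finset (Fin n)} (h : Y' ⊆ Y) (L : List (Rec n)) :
    useless Y' L ≤ useless Y L := by
  unfold useless
  induction L with
  | nil => simp
  | cons r L ih =>
    simp only [List.map_cons, List.sum_cons]
    exact Nat.add_le_add (card_le_card (sdiff_subset_sdiff h (Subset.refl _))) ih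

lemma Good.anti {k : ℕ → ℕ} {Q : ℕ} {Y Y' : Finset (Fin n)} {L L' : List (Rec n)}
    (h : Good k Q Y L) (hY : Y' ⊆ Y) (hL : L'.Sublist L) : Good k Q Y' L' := by
  intro M hM t ht
  exact (Nat.mul_le_mul_left _ (useless_anti hY M)).trans (h M (hM.trans hL) t ht)

lemma exceptional_card' {Y : Finset (Fin n)} {L : List (Rec n)} {k Q : ℕ} (hk : 1 ≤ k)
    (hL : L ≠ []) (hQ : (k + 1) * useless Y L ≤ k * L.length * Q) :
    (Y.filter fun x => k * L.length < (k + 1) * L.countP (fun r => decide (x ∉ r.W))).card
      ≤ Q := by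
  set E := Y.filter fun x => k * L.length < (k + 1) * L.countP (fun r => decide (x ∉ r.W)) with hE
  have h1 : ∑ x ∈ E, k * L.length ≤ ∑ x ∈ E, (k + 1) * L.countP (fun r => decide (x ∉ r.W)) :=
    sum_le_sum fun x hx => by rw [hE, mem_filter] at hx; exact hx.2.le
  have h2 : ∑ x ∈ E, (k + 1) * L.countP (fun r => decide (x ∉ r.W))
      ≤ (k + 1) * ∑ x ∈ Y, L.countP (fun r => decide (x ∉ r.W)) := by
    rw [← mul_sum]
    exact Nat.mul_le_mul_left _ (sum_le_sum_of_subset (filter_subset _ _))
  rw [sum_count] at h2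
  rw [sum_const, smul_eq_mul] at h1
  have h4 : 0 < L.length := List.length_pos_of_ne_nil hL
  have h5 : E.card * (k * L.length) ≤ Q * (k * L.length) := by
    calc E.card * (k * L.length) ≤ (k + 1) * useless Y L := h1.trans h2
      _ ≤ k * L.length * Q := hQ
      _ = Q * (k * L.length) := by ring
  exact Nat.le_of_mul_le_mul_right h5 (Nat.mul_pos (by omega) h4)

variable {A : Past n → Fin n} {c : ℕ → ℕ}

/-- **The wiping phase.** The records `L` are wiped in at most `m` steps, by freezing at most `m`
further coordinates. -/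
lemma wipe' (hA : Valid A) {k : ℕ → ℕ} {Q : ℕ} (hk : ∀ t, 1 ≤ k t) (m : ℕ) :
    ∀ (Y Z : Finset (Fin n)) (L : List (Rec n)) (h : Past n) (a : Fin n → Bool),
      Z ⊆ Y → Good k Q Y L → Bud k m L.length → Z.card + Q + m < Y.card →
      ∃ (q : List (Rec n)) (b : Fin n → Bool) (X : Finset (Fin n)),
        Walk A c h a q b ∧ Ext Y q ∧ (∀ r ∈ q, r.S ⊆ Y \ Z) ∧
        (∀ r ∈ q, r.W ⊆ Y ∧ (Y \ r.W).card ≤ Z.card + Q + m) ∧
        X ⊆ Y ∧ Z ⊆ X ∧ X.card ≤ Z.card + m ∧ q.length ≤ m ∧
        (∀ r ∈ L, Wipes X b r) ∧ ∀ r ∈ q, Wipes X b r := by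
  induction m with
  | zero =>
    intro Y Z L h a hZ hL hc hY
    have hL0 : L = [] := by
      rw [← List.length_eq_zero_iff]
      exact bud_zero hc
    subst hL0
    exact ⟨[], a, Z, rfl, ext_nil Y, by simp, by simp, hZ, Subset.refl _, by simp, by simp,
      by simp, by simp⟩
  | succ m ih =>
    intro Y Z L h a hZ hL hc hY
    by_cases hL0 : L = []
    · subst hL0
      exact ⟨[], a, Z, rfl, ext_nil Y, by simp, by simp, hZ, Subset.refl _, by simp, by simp,
        by simp, by simp⟩
    obtain ⟨t, ht, hbud⟩ := bud_step hc (List.length_pos_of_ne_nil hL0)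
    -- if a test wipes a large part of `L`, the rest is small enough
    have hstep : ∀ P : Rec n → Bool, L.length ≤ (2 * k t + 2) * (L.filter P).length →
        Bud k m (L.filter fun r => !P r).length := by
      intro P hP
      have h1 := filter_card L P hP
      exact hbud _ (by nlinarith)
    by_cases hx : ∃ x ∈ Y, L.length ≤
        (2 * k t + 2) * (L.filter fun r => decide (x ∈ r.W ∧ a x ≠ r.w x)).length
    · -- freeze `x` as it is
      obtain ⟨x, hxY, hx⟩ := hx
      have hZ' : insert x Z ⊆ Y := insert_subset hxY hZ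
      have hZc : (insert x Z).card ≤ Z.card + 1 := card_insert_le _ _
      obtain ⟨q, b, X, h1, h2, h3, h4, h5, h6, h7, h8, h9, h10⟩ :=
        ih Y (insert x Z) (L.filter fun r => !decide (x ∈ r.W ∧ a x ≠ r.w x)) h a hZ'
          (hL.anti (Subset.refl _) List.filter_sublist) (hstep _ hx) (by omega)
      refine ⟨q, b, X, h1, h2, fun r hr => ?_, fun r hr => ⟨(h4 r hr).1, ?_⟩, h5,
        (subset_insert _ _).trans h6, by omega, by omega, fun r hr => ?_, h10⟩
      · exact (h3 r hr).trans (sdiff_subset_sdiff (Subset.refl _) (subset_insert _ _))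
      · have := (h4 r hr).2
        omega
      · by_cases hr' : x ∈ r.W ∧ a x ≠ r.w x
        · refine ⟨x, h6 (mem_insert_self _ _), hr'.1, ?_⟩
          rw [(walk_fix hA h1 h3).1 x (by simp)]
          exact hr'.2
        · exact h9 r (List.mem_filter.2 ⟨hr, by
            simp only [Bool.not_eq_true', decide_eq_false_iff_not]; exact hr'⟩)
    · -- let the rule move
      push Not at hx
      set E := Y.filter fun x =>
        k t * L.length < (k t + 1) * L.countP (fun r => decide (x ∉ r.W)) with hE
      have hEc : E.card ≤ Q := exceptional_card' (hk t) hL0 (hL L (List.Sublist.refl _) t ht)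
      set S := Y \ (E ∪ Z) with hS
      have hSc : Y.card ≤ S.card + (E.card + Z.card) := by
        have h1 := card_le_card_sdiff_add_card (s := Y) (t := E ∪ Z)
        rw [← hS] at h1
        have h2 := card_union_le E Z
        omega
      have hSne : S.Nonempty := by
        rw [← card_pos]
        omega
      have hSY : S ⊆ Y := sdiff_subset
      set i := A ((a, c h.length, S) :: h) with hi
      have hiS : i ∈ S := hA a _ S h hSne
      have hiY : i ∈ Y := hSY hiS
      have hiE : i ∉ E := fun h' => (mem_sdiff.1 hiS).2 (mem_union_left _ h')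
      have hiZ : i ∉ Z := fun h' => (mem_sdiff.1 hiS).2 (mem_union_right _ h')
      have hcount : L.length ≤
          (2 * k t + 2) * (L.filter fun r => decide (i ∈ r.W ∧ flip a i i ≠ r.w i)).length := by
        have h1 := count_three L a i
        have h2 := hx i hiY
        have h3 : (k t + 1) * L.countP (fun r => decide (i ∉ r.W)) ≤ k t * L.length := by
          by_contra h'
          exact hiE (by rw [hE, mem_filter]; exact ⟨hiY, by omega⟩)
        nlinarith
      have hYc : (Y \ {i}).card + 1 = Y.card := by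
        rw [sdiff_singleton_eq_erase]
        exact card_erase_add_one hiY
      obtain ⟨q, b, X, h1, h2, h3, h4, h5, h6, h7, h8, h9, h10⟩ :=
        ih (Y \ {i}) Z (L.filter fun r => !decide (i ∈ r.W ∧ flip a i i ≠ r.w i))
          ((a, c h.length, S) :: h) (flip a i)
          (fun z hz => mem_sdiff.2 ⟨hZ hz, by
            rw [mem_singleton]; rintro rfl; exact hiZ hz⟩)
          (hL.anti sdiff_subset List.filter_sublist)
          (hstep _ hcount) (by omega)
      have hq' : ∀ r ∈ q, r.S ⊆ Y \ {i} := fun r hr => (h3 r hr).trans sdiff_subset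
      have hfix := walk_fix hA h1 hq'
      have hbi : b i = flip a i i := hfix.1 i (by simp)
      have hne : flip a i i ≠ a i := by rw [flip_self]; simp
      have hcl : [(⟨a, S, S⟩ : Rec n)].map (cl {i} (flip a i)) = [⟨a, S, S⟩] := by
        simp only [List.map_cons, List.map_nil, cl]
        congr 2
        rw [filter_true_of_mem]
        rintro x hx ⟨h1, h2⟩
        rw [mem_singleton] at h1
        subst h1
        exact hne h2
      refine ⟨⟨a, S, S⟩ :: q, b, insert i X, ⟨rfl, hSne, h1⟩, ?_, ?_, ?_, ?_, ?_, ?_, ?_, ?_, ?_⟩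
      · have := ext_comp (X := {i}) (b := flip a i) (ext_single Y a S) (by
          intro r hr
          rw [List.mem_singleton] at hr
          subst hr
          exact ⟨i, mem_singleton_self i, hiS, hne⟩) h2 hq' (fun r hr => (h4 r hr).1) (by
          intro r hr x hx
          exact hfix.2 r hr x (by rw [mem_sdiff]; exact fun h' => h'.2 hx))
        rwa [hcl] at this
      · intro r hr
        rcases List.mem_cons.1 hr with rfl | hr
        · intro x hx
          rw [mem_sdiff]
          exact ⟨hSY hx, fun h' => (mem_sdiff.1 hx).2 (mem_union_right _ h')⟩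
        · exact (h3 r hr).trans (sdiff_subset_sdiff sdiff_subset (Subset.refl _))
      · intro r hr
        rcases List.mem_cons.1 hr with rfl | hr
        · refine ⟨hSY, ?_⟩
          change (Y \ S).card ≤ _
          have h11 : Y \ S ⊆ E ∪ Z := by
            intro x hx
            rw [mem_sdiff] at hx
            by_contra h'
            exact hx.2 (mem_sdiff.2 ⟨hx.1, h'⟩)
          have h12 := card_le_card h11
          have h13 := card_union_le E Z
          omega
        · refine ⟨(h4 r hr).1.trans sdiff_subset, ?_⟩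
          have h11 : Y \ r.W ⊆ insert i ((Y \ {i}) \ r.W) := by
            intro x hx
            rw [mem_sdiff] at hx
            rw [mem_insert, mem_sdiff, mem_sdiff, mem_singleton]
            by_cases hxi : x = i
            · exact Or.inl hxi
            · exact Or.inr ⟨⟨hx.1, hxi⟩, hx.2⟩
          have h12 := card_le_card h11
          have h13 := card_insert_le i ((Y \ {i}) \ r.W)
          have h14 := (h4 r hr).2
          omega
      · exact insert_subset hiY (h5.trans sdiff_subset)
      · exact h6.trans (subset_insert _ _)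
      · have := card_insert_le i X
        omega
      · rw [List.length_cons]
        omega
      · intro r hr
        by_cases hr' : i ∈ r.W ∧ flip a i i ≠ r.w i
        · exact ⟨i, mem_insert_self _ _, hr'.1, by rw [hbi]; exact hr'.2⟩
        · obtain ⟨x, hx1, hx2⟩ := h9 r (List.mem_filter.2 ⟨hr, by
            simp only [Bool.not_eq_true', decide_eq_false_iff_not]; exact hr'⟩)
          exact ⟨x, mem_insert_of_mem hx1, hx2⟩
      · intro r hr
        rcases List.mem_cons.1 hr with rfl | hr
        · exact ⟨i, mem_insert_self _ _, hiS, by rw [hbi]; exact hne⟩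
        · obtain ⟨x, hx1, hx2⟩ := h10 r hr
          exact ⟨x, mem_insert_of_mem hx1, hx2⟩

end Pool.Agent.Y639.AR
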